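import Pool.Agent.H723R2.LSWWander
import Pool.Agent.TH930.ZT.Main

set_option autoImplicit false

/-! The Fatou components of the integers descend in logarithmic time. -/

namespace Pool.Agent.Results.MP_071ec9_an.LogTimeComponents

open Pool.Agent.H384R2.Fatou

/-- The entire function of Letherman, Schleicher and Wood; `f₀ n = T n` for every integer `n`, where
`T` is the `3x+1` function. -/
noncomputable def f₀ (z : ℂ) : ℂ :=
  z / 2 + (z + 1 / 2) * ((1 - Complex.cos (Real.pi * z)) / 2) +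
    1 / Real.pi * (1 / 2 - Complex.cos (Real.pi * z)) * Complex.sin (Real.pi * z)

/-- the binary entropy function, in bits -/
noncomputable def H (p : ℝ) : ℝ := Real.binEntropy p / Real.log 2

/-- In `m ≤ B log |n / w|` steps `f₀` maps the integer `n` to an integer `w`, `0 < |w| ≤ y`, and the
Fatou component of `n` into the Fatou component of `w`. -/
def Descends (B y : ℝ) (n : ℤ) : Prop :=
  ∃ (m : ℕ) (w : ℤ), w ≠ 0 ∧ |(w : ℝ)| ≤ y ∧ (m : ℝ) ≤ B * Real.log (|(n : ℝ)| / |(w : ℝ)|) ∧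
    f₀^[m] (n : ℂ) = w ∧ f₀^[m] '' FatouComponent f₀ n ⊆ FatouComponent f₀ w

/-! ### the 3x+1 function on the integers -/

open Pool.Agent.H499R2.ND (Td)

theorem T_eq : Pool.Agent.H723R2.LSW.T = Td 1 := rfl

theorem f_iter (m : ℕ) (n : ℤ) : f₀^[m] (n : ℂ) = (((Td 1)^[m] n : ℤ) : ℂ) := by
  rw [← T_eq]
  exact Pool.Agent.H723R2.LSW.f₀_iter n m

theorem comp_map (m : ℕ) (n : ℤ) :
    f₀^[m] '' FatouComponent f₀ n ⊆ FatouComponent f₀ (((Td 1)^[m] n : ℤ) : ℂ) := by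
  rw [← f_iter]
  exact Pool.Agent.H723R2.LSW.component_map Pool.Agent.H723R2.LSW.f₀_differentiable.continuous
    Pool.Agent.H723R2.LSW.f₀_open (Pool.Agent.H723R2.LSW.int_mem_fatou n) m

theorem T_ne (x : ℤ) (hx : x ≠ 0) : Td 1 x ≠ 0 := by
  unfold Td
  split_ifs with h
  · omega
  · omega

theorem desc_of {B y : ℝ} {n : ℤ} (hn : n ≠ 0) (h : Pool.Agent.TH930.ZT.Desc 1 B y n) :
    Descends B y n := by
  obtain ⟨m, h1, h2⟩ := h
  exact ⟨m, (Td 1)^[m] n, Pool.Agent.TH930.ZT.iter_ne T_ne hn m, h1, h2, f_iter m n, comp_map m n⟩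

/-- There is a function `c(B)` such that for every `B > 2 / log (4/3)` there is `C` such that for all
`X ≥ 2`, `y ≥ 1`, for all but `C (log X)^5 X / y^c(B)` of the integers `n ≠ 0` of `[-X, X]`, the Fatou
component of `n` is mapped into that of an integer `w`, `0 < |w| ≤ y`, by `f₀^m` with
`m ≤ B log |n / w|`; `c(B) > 1 - H(p)` with `p = (log 2 - 1/B) / log 3` for all these `B`, and
`c(B) > 1 - H(log_3 2)` for all large `B`. -/
theorem result : ∃ (c : ℝ → ℝ) (B₁ : ℝ), (∀ B : ℝ, B₁ ≤ B → 1 - H (Real.log 2 / Real.log 3) < c B) ∧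
    ∀ B : ℝ, 2 / Real.log (4 / 3) < B →
      1 - H ((Real.log 2 - 1 / B) / Real.log 3) < c B ∧
      ∃ C : ℝ, 0 < C ∧ ∀ X y : ℝ, 2 ≤ X → 1 ≤ y →
        ({n : ℤ | n ≠ 0 ∧ |(n : ℝ)| ≤ X ∧ ¬ Descends B y n}.ncard : ℝ) ≤
          C * Real.log X ^ 5 * (X / y ^ c B) := by
  obtain ⟨c, B₁, h1, h2⟩ := Pool.Agent.TH930.ZT.law (k := 1) odd_one T_ne
  refine ⟨c, B₁, h1, fun B hB => ?_⟩
  obtain ⟨h3, C, hC, h4⟩ := h2 B hB
  refine ⟨h3, C, hC, fun X y hX hy => le_trans ?_ (h4 X y hX hy)⟩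
  have hsub : {n : ℤ | n ≠ 0 ∧ |(n : ℝ)| ≤ X ∧ ¬ Descends B y n} ⊆
      {n : ℤ | n ≠ 0 ∧ |(n : ℝ)| ≤ X ∧ ¬ Pool.Agent.TH930.ZT.Desc 1 B y n} := by
    rintro n ⟨g1, g2, g3⟩
    exact ⟨g1, g2, fun g4 => g3 (desc_of g1 g4)⟩
  exact_mod_cast Set.ncard_le_ncard hsub (Pool.Agent.TH930.ZT.fin_set _ X)

end Pool.Agent.Results.MP_071ec9_an.LogTimeComponents
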